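import Pool.Agent.H308.AL.Stm

/-!
# Assembly
-/

set_option autoImplicit false

open Filter Topology

noncomputable section

namespace Pool.Agent.H308.AL

section

variable {H : Type} [NormedAddCommGroup H] [InnerProductSpace ℂ H] [CompleteSpace H]

theorem it_zero (T : H →L[ℂ] H) : it T 0 = T := rfl

theorem it_succ (T : H →L[ℂ] H) (n : ℕ) : it T (n + 1) = al (it T n) := by
  unfold it
  rw [Function.iterate_succ_apply']

theorem it_inj (hA : S_ALU) {T : H →L[ℂ] H} (hT : Function.Injective T) (n : ℕ) :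
    Function.Injective (it T n) := by
  induction n with
  | zero => exact hT
  | succ n ih =>
    rw [it_succ]
    exact (hA H (it T n) ih).2.2.1

theorem it_red (hA : S_ALU) (hR : S_RED) {S T J : H →L[ℂ] H} (hS : Function.Injective S)
    (hT : Function.Injective T) (hJ : star J * J = 1) (h1 : S * J = J * T)
    (h2 : star S * J = J * star T) (n : ℕ) :
    it S n * J = J * it T n ∧ star (it S n) * J = J * star (it T n) := by
  induction n with
  | zero => exact ⟨h1, h2⟩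
  | succ n ih =>
    rw [it_succ, it_succ]
    exact hR H (it S n) (it T n) J (it_inj hA hS n) (it_inj hA hT n) hJ ih.1 ih.2

theorem it_unique (hA : S_ALU) {T : H →L[ℂ] H} (hT : Function.Injective T)
    (A : ℕ → H →L[ℂ] H) (h0 : A 0 = T) (hs : ∀ n, IsAluthge (A n) (A (n + 1))) (n : ℕ) :
    A n = it T n := by
  induction n with
  | zero => exact h0
  | succ n ih =>
    have h1 := hs n
    rw [ih] at h1
    rw [it_succ]
    exact (hA H (it T n) (it_inj hA hT n)).2.1 _ h1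

theorem it_seq (hA : S_ALU) {T : H →L[ℂ] H} (hT : Function.Injective T) (n : ℕ) :
    IsAluthge (it T n) (it T (n + 1)) := by
  rw [it_succ]
  exact (hA H (it T n) (it_inj hA hT n)).1

end

/-- lower bound for eventually constant weights -/
theorem lower (hA : S_ALU) (hLOW : S_LOW) (hPUR : S_PUR) (hSIM : S_SIM) (hUP : S_UP)
    (hTWB : S_TWB) (hMOD : S_MOD) (hDIA : S_DIA) (hFIN : S_FIN)
    (a : ℝ) (b : ℕ → ℝ) (ha : 0 < a) (ha1 : a < 1) (hb : ∀ k, 0 < b k)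
    (hanti : ∀ j k, k ≤ j → b j ≤ b k) (hev : ∃ N, ∀ k ≥ N, b k = b N)
    (L : L2 →L[ℂ] L2) (hL : SOT (it (T a b)) L) (hq : QuasiNormal L) (x : L2) :
    Real.sqrt a * ‖x‖ ≤ ‖L x‖ := by
  have hTinj : Function.Injective (T a b) := (hTWB a b ha ha1.le hb hanti).2.2
  have hRinj : Function.Injective (R a) :=
    (hTWB a (fun _ => 1) ha ha1.le (fun _ => one_pos) (fun _ _ _ => le_rfl)).2.2
  have hsq : 0 < Real.sqrt a := Real.sqrt_pos.2 ha
  obtain ⟨U, hP, hR⟩ := hMOD a ha ha1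
  obtain ⟨r, hr, hpur⟩ := hPUR L2 a (Real.sqrt a) E U ha ha1 hsq hP
  rw [← hR] at hpur
  obtain ⟨Y, Z, hYZ, hZY, -, -, -, hTR, -⟩ := hDIA b hb hanti hev
  have hYT : Y * T a b = R a * Y := by
    rw [hTR a ha ha1, ← mul_assoc, ← mul_assoc, hYZ, one_mul]
  obtain ⟨C, hC, hsim⟩ := hSIM L2 (T a b) (R a) Y Z (Real.sqrt a) (Real.sqrt a ^ r) r hTinj hRinj
    hYZ hZY hYT hsq (pow_nonneg hsq.le r) hr hpur
  obtain ⟨q, K, hq0, hq1, hK, hF⟩ := hFIN a b ha ha1 hb hanti hev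
  obtain ⟨c, hc, hlow⟩ := hLOW L2 (T a b) q K hTinj hq0 hq1 hK hF
  exact hUP L2 (T a b) L (Real.sqrt a) c C r hTinj hsq hc hC hr hlow hsim hL hq x

/-- upper bound for eventually decreasing weights -/
theorem upper (hDOWN : S_DOWN) (hTWB : S_TWB) (hBPW : S_BPW)
    (a : ℝ) (b : ℕ → ℝ) (C : ℝ) (ha : 0 < a) (ha1 : a < 1) (hb : ∀ k, 0 < b k)
    (hanti : ∀ j k, k ≤ j → b j ≤ b k) (hC : 1 ≤ C)
    (hev : ∀ j k : ℕ, k ≤ j → b j ≤ C * (((k : ℝ) + 1) / ((j : ℝ) + 1)) ^ 2 * b k)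
    (L : L2 →L[ℂ] L2) (hL : SOT (it (T a b)) L) (hq : QuasiNormal L) (x : L2) :
    ‖L x‖ ≤ a * ‖x‖ := by
  have hTinj : Function.Injective (T a b) := (hTWB a b ha ha1.le hb hanti).2.2
  obtain ⟨C', hC', hpow⟩ := hBPW a b C ha ha1 hb hanti hC hev
  exact hDOWN L2 (T a b) L a C' hTinj ha hC' hpow hL hq x

/-- continuity of the iterates -/
theorem it_cont (hA : S_ALU) (hCONT : S_CONT) (hTCO : S_TCO) (hTWB : S_TWB) (hWTS : S_WTS)
    (a : ℝ) (ha : 0 < a) (ha1 : a < 1) (n : ℕ) :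
    StarCont fun s : ℕ → Bool => it (T a (bs s)) n := by
  induction n with
  | zero => exact hTCO a ha ha1
  | succ n ih =>
    have h := hCONT L2 (ℕ → Bool) (fun s => it (T a (bs s)) n)
      (fun s => it_inj hA ((hTWB a (bs s) ha ha1.le (hWTS s).1 (hWTS s).2.1).2.2) n) ih
    have h2 : (fun s : ℕ → Bool => it (T a (bs s)) (n + 1)) =
        fun s : ℕ → Bool => al (it (T a (bs s)) n) := by
      funext s
      rw [it_succ]
    rw [h2]
    exact h

/-- There is a point of the Cantor space at which the iterates do not converge strongly to a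
quasinormal operator. -/
theorem exists_bad (hA : S_ALU) (hLOW : S_LOW) (hPUR : S_PUR) (hSIM : S_SIM) (hUP : S_UP)
    (hDOWN : S_DOWN) (hCONT : S_CONT) (hBAIRE : S_BAIRE) (hWTS : S_WTS)
    (hTWB : S_TWB) (hBPW : S_BPW) (hTCO : S_TCO) (hMOD : S_MOD) (hDIA : S_DIA) (hFIN : S_FIN)
    (a : ℝ) (ha : 0 < a) (ha1 : a < 1) :
    ∃ s : ℕ → Bool, ¬ ∃ L, SOT (it (T a (bs s))) L ∧ QuasiNormal L := by
  by_contra hcon
  push Not at hcon
  choose L hL hq using hcon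
  have hx : (lp.single 2 0 (1 : ℂ) : L2) ≠ 0 := by
    intro h
    have h1 := congrArg (fun y : L2 => y 0) h
    simp at h1
  set x : L2 := lp.single 2 0 (1 : ℂ) with hxdef
  have hxn : 0 < ‖x‖ := norm_pos_iff.2 hx
  have hlt : a * ‖x‖ < Real.sqrt a * ‖x‖ := by
    refine mul_lt_mul_of_pos_right ?_ hxn
    rw [Real.lt_sqrt ha.le]
    nlinarith
  refine hBAIRE (fun n s => ‖it (T a (bs s)) n x‖) (fun s => ‖L s x‖) (a * ‖x‖)
    (Real.sqrt a * ‖x‖) hlt ?_ ?_ ?_ ?_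
  · intro n
    exact ((it_cont hA hCONT hTCO hTWB hWTS a ha ha1 n).cont x).norm
  · intro s
    exact (hL s x).norm
  · intro s hs
    exact lower hA hLOW hPUR hSIM hUP hTWB hMOD hDIA hFIN a (bs s) ha ha1 (hWTS s).1 (hWTS s).2.1
      ((hWTS s).2.2.2.1 hs) (L s) (hL s) (hq s) x
  · intro s hs
    obtain ⟨C, hC, hev⟩ := (hWTS s).2.2.2.2 hs
    exact upper hDOWN hTWB hBPW a (bs s) C ha ha1 (hWTS s).1 (hWTS s).2.1 hC hev (L s) (hL s)
      (hq s) x

theorem main (hA : S_ALU) (hLOW : S_LOW) (hPUR : S_PUR) (hSIM : S_SIM) (hUP : S_UP)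
    (hDOWN : S_DOWN) (hCONT : S_CONT) (hBAIRE : S_BAIRE) (hWTS : S_WTS)
    (hTWB : S_TWB) (hBPW : S_BPW) (hTCO : S_TCO) (hMOD : S_MOD) (hDIA : S_DIA) (hFIN : S_FIN)
    (hRED : S_RED) (hRED2 : S_RED2) (hEVL : S_EVL) (hPHI : S_PHI) (hSIG : S_SIG)
    (a : ℝ) (ha : 0 < a) (ha1 : a < 1) :
    ∃ β : ℕ → ℝ, β 0 = 1 ∧ (∀ j, 0 < β j) ∧
      (∀ (x : L2) (z : ℂ), ‖z‖ < 1 → Summable fun j => ‖x j / (β j : ℂ) * z ^ j‖) ∧
      ∃ Cφ Cσ : L2 →L[ℂ] L2,
        IsComp β (fun z => a * z + (1 - a)) Cφ ∧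
        IsComp β (fun z => a * z / (1 - (1 - a) * z)) Cσ ∧
        (∃ A : ℕ → L2 →L[ℂ] L2, A 0 = Cσ ∧ ∀ n, IsAluthge (A n) (A (n + 1))) ∧
        ∀ A : ℕ → L2 →L[ℂ] L2, A 0 = Cσ → (∀ n, IsAluthge (A n) (A (n + 1))) →
          ¬ ∃ L : L2 →L[ℂ] L2, QuasiNormal L ∧ SOT A L := by
  obtain ⟨s, hs⟩ := exists_bad hA hLOW hPUR hSIM hUP hDOWN hCONT hBAIRE hWTS hTWB hBPW hTCO hMOD
    hDIA hFIN a ha ha1
  obtain ⟨hpos, hanti, hrat, -, -⟩ := hWTS s
  have hb0 : bs s 0 = 1 := rfl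
  obtain ⟨Cφ, hCφ⟩ := hPHI a (bs s) ha ha1 hpos hb0 hanti hrat
  obtain ⟨S, J, hSinj, hJ, h1, h2, hS⟩ := hSIG a (bs s) ha ha1 hpos hb0 hanti hrat
  have hTinj : Function.Injective (T a (bs s)) := (hTWB a (bs s) ha ha1.le hpos hanti).2.2
  refine ⟨bet (bs s), rfl, ?_, ?_, Cφ, S, hCφ, hS, ⟨it S, rfl, fun n => it_seq hA hSinj n⟩, ?_⟩
  · intro j
    cases j with
    | zero => exact one_pos
    | succ k => exact hpos k
  · refine hEVL (bet (bs s)) ?_
    intro j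
    cases j with
    | zero =>
      change (1 / (((0 : ℕ) : ℝ) + 1)) ^ 2 ≤ (1 : ℝ)
      norm_num
    | succ k =>
      change (1 / (((k + 1 : ℕ) : ℝ) + 1)) ^ 2 ≤ bs s k
      have h3 := hrat k 0 (Nat.zero_le k)
      rw [hb0, mul_one] at h3
      refine le_trans ?_ h3
      push_cast
      rw [zero_add]
      have h4 : (0 : ℝ) < (k : ℝ) + 1 := by positivity
      refine pow_le_pow_left₀ (by positivity) ?_ 2
      exact one_div_le_one_div_of_le h4 (by linarith)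
  · rintro A hA0 hAs ⟨L, hLq, hL⟩
    have hAit : A = it S := funext fun n => it_unique hA hSinj A hA0 hAs n
    rw [hAit] at hL
    have hred := it_red hA hRED hSinj hTinj hJ h1 h2
    obtain ⟨L', hL', hq'⟩ := hRED2 L2 (it S) (it (T a (bs s))) J L hJ (fun n => (hred n).1)
      (fun n => (hred n).2) hL hLq
    exact hs ⟨L', hL', hq'⟩

end Pool.Agent.H308.AL
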