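import Mathlib

/-!
# Iterated Aluthge transforms: definitions
-/

set_option autoImplicit false

open Filter Topology

noncomputable section

namespace Pool.Agent.H308.AL

section Abs

variable {H : Type} [NormedAddCommGroup H] [InnerProductSpace ℂ H] [CompleteSpace H]

/-- `|T| = (T* T)^(1/2)` -/
def ab (T : H →L[ℂ] H) : H →L[ℂ] H := CFC.sqrt (star T * T)

/-- `|T|^(1/2)` -/
def hf (T : H →L[ℂ] H) : H →L[ℂ] H := CFC.sqrt (ab T)

/-- real powers `A ^ q` of a positive operator (continuous functional calculus) -/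
def pw (A : H →L[ℂ] H) (q : ℝ) : H →L[ℂ] H := A ^ q

/-- `T = U |T|` is the polar decomposition: `U` is a partial isometry with `ker U = ker T`. -/
structure IsPolar (T U : H →L[ℂ] H) : Prop where
  eq : T = U * ab T
  partialIsometry : U * star U * U = U
  ker : ∀ x, U x = 0 ↔ T x = 0

/-- `S = |T|^(1/2) U |T|^(1/2)` is the Aluthge transform of `T = U |T|`. -/
def IsAluthge (T S : H →L[ℂ] H) : Prop := ∃ U, IsPolar T U ∧ S = hf T * U * hf T

/-- `L` commutes with `L* L`. -/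
def QuasiNormal (L : H →L[ℂ] H) : Prop := L * (star L * L) = (star L * L) * L

/-- `T n → L` in the strong operator topology -/
def SOT (T : ℕ → H →L[ℂ] H) (L : H →L[ℂ] H) : Prop :=
  ∀ x, Tendsto (fun n => T n x) atTop (𝓝 (L x))

open Classical in
/-- the Aluthge transform as a function (used in the proof only; it is the unique `S` with
`IsAluthge T S` when `T` is injective) -/
def al (T : H →L[ℂ] H) : H →L[ℂ] H := if h : ∃ S, IsAluthge T S then h.choose else 0

/-- the iterated Aluthge transforms -/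
def it (T : H →L[ℂ] H) (n : ℕ) : H →L[ℂ] H := al^[n] T

/-- a bounded family of operators, continuous in the *-strong operator topology -/
structure StarCont {X : Type} [TopologicalSpace X] (A : X → H →L[ℂ] H) : Prop where
  bdd : ∃ M : ℝ, ∀ s, ‖A s‖ ≤ M
  cont : ∀ x, Continuous fun s => A s x
  cont' : ∀ x, Continuous fun s => star (A s) x

/-- the abstract pure model: an isometry `U` and a semigroup `E c`, `0 ≤ c < 1`, of self-adjoint
injective contractions with `E c * U = U * E (a c)` -/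
structure Pure (a : ℝ) (E : ℝ → H →L[ℂ] H) (U : H →L[ℂ] H) : Prop where
  iso : star U * U = 1
  sa : ∀ c, 0 ≤ c → c < 1 → star (E c) = E c
  zero : E 0 = 1
  add : ∀ c d, 0 ≤ c → 0 ≤ d → c + d < 1 → E c * E d = E (c + d)
  le_one : ∀ c, 0 ≤ c → c < 1 → ‖E c‖ ≤ 1
  inj : ∀ c, 0 ≤ c → c < 1 → Function.Injective (E c)
  comm : ∀ c, 0 ≤ c → c < 1 → E c * U = U * E (a * c)

end Abs

/-! ## the concrete operators -/

/-- the Hilbert space `ℓ²` -/
abbrev L2 : Type := lp (fun _ : ℕ => ℂ) 2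

/-- `M` is the operator with the lower triangular matrix `m j k` (`k ≤ j`) -/
def IsMat (m : ℕ → ℕ → ℝ) (M : L2 →L[ℂ] L2) : Prop :=
  ∀ (x : L2) (j : ℕ), (M x) j = ∑ k ∈ Finset.range (j + 1), (m j k : ℂ) * x k

open Classical in
/-- the operator with a given lower triangular matrix (0 when there is none) -/
def mat (m : ℕ → ℕ → ℝ) : L2 →L[ℂ] L2 := if h : ∃ M, IsMat m M then h.choose else 0

/-- the matrix of `C_σ` on `z H²`: `t a j k = a^(k+1) binom(j,k) (1-a)^(j-k)` -/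
def t (a : ℝ) (j k : ℕ) : ℝ := a ^ (k + 1) * (j.choose k) * (1 - a) ^ (j - k)

/-- the matrix of `C_σ` on `z H²(β)` with `β (k+1) = b k` -/
def tw (a : ℝ) (b : ℕ → ℝ) (j k : ℕ) : ℝ := t a j k * (b j / b k)

/-- the operator `C_σ` on `z H²(β)`, `β (k+1) = b k` -/
def T (a : ℝ) (b : ℕ → ℝ) : L2 →L[ℂ] L2 := mat (tw a b)

/-- the operator `C_σ` on `z H²` -/
def R (a : ℝ) : L2 →L[ℂ] L2 := T a (fun _ => 1)

/-- the semigroup `E c` -/
def E (c : ℝ) : L2 →L[ℂ] L2 := ((1 / (1 - c) : ℝ) : ℂ) • (star (R (1 - c)) * R (1 - c))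

/-- the weight attached to a point of the Cantor space -/
def bs (s : ℕ → Bool) : ℕ → ℝ
  | 0 => 1
  | k + 1 => if s k then bs s k else bs s k * (((k : ℝ) + 1) / ((k : ℝ) + 2)) ^ 2

/-- the weight `β` with `β 0 = 1`, `β (k+1) = b k` -/
def bet (b : ℕ → ℝ) : ℕ → ℝ
  | 0 => 1
  | k + 1 => b k

/-- the function `f(z) = ∑ c_j z^j` with `c_j = x_j / β_j`: the element of `H²(β)` with coordinates
`x` in the orthonormal basis `z^j / β_j` -/
def evalH (β : ℕ → ℝ) (x : L2) (z : ℂ) : ℂ := ∑' j, x j / (β j : ℂ) * z ^ j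

/-- `A` is the composition operator `f ↦ f ∘ ψ` on `H²(β)` -/
def IsComp (β : ℕ → ℝ) (ψ : ℂ → ℂ) (A : L2 →L[ℂ] L2) : Prop :=
  ∀ (x : L2) (z : ℂ), ‖z‖ < 1 → evalH β (A x) z = evalH β x (ψ z)

open Classical in
/-- kernel vectors `(w^k)_k`, `0 ≤ w < 1` -/
def kv (w : ℝ) : L2 :=
  if h : Memℓp (fun k : ℕ => ((w ^ k : ℝ) : ℂ)) 2 then ⟨fun k => ((w ^ k : ℝ) : ℂ), h⟩ else 0

end Pool.Agent.H308.AL
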