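import Pool.Agent.H308.AL.Stm

set_option autoImplicit false

open Filter Topology

noncomputable section

namespace Pool.Agent.H308.AL

section

variable {H : Type} [NormedAddCommGroup H] [InnerProductSpace ℂ H] [CompleteSpace H]

/-- `‖B x‖ ≤ C ‖A x‖` gives `B* B ≤ C² A* A`. -/
theorem le_of_norm (A B : H →L[ℂ] H) (C : ℝ) (_hC : 0 ≤ C) (h : ∀ x, ‖B x‖ ≤ C * ‖A x‖) :
    star B * B ≤ ((C ^ 2 : ℝ) : ℂ) • (star A * A) := by
  rw [ContinuousLinearMap.le_def, ContinuousLinearMap.isPositive_def']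
  refine ⟨?_, fun x => ?_⟩
  · refine IsSelfAdjoint.sub ?_ (IsSelfAdjoint.star_mul_self B)
    refine IsSelfAdjoint.smul ?_ (IsSelfAdjoint.star_mul_self A)
    exact Complex.conj_ofReal _
  · rw [ContinuousLinearMap.reApplyInnerSelf_apply]
    have h1 : ∀ W : H →L[ℂ] H, RCLike.re (inner ℂ ((star W * W) x) x) = ‖W x‖ ^ 2 := by
      intro W
      have h2 : (star W * W) x = (ContinuousLinearMap.adjoint W) (W x) := rfl
      rw [h2, ContinuousLinearMap.adjoint_inner_left, inner_self_eq_norm_sq]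
    have h3 : (((C ^ 2 : ℝ) : ℂ) • (star A * A) - star B * B) x =
        ((C ^ 2 : ℝ) : ℂ) • ((star A * A) x) - (star B * B) x := rfl
    rw [h3, inner_sub_left, inner_smul_left, map_sub, h1 B, Complex.conj_ofReal]
    have h4 : RCLike.re (((C ^ 2 : ℝ) : ℂ) * inner ℂ ((star A * A) x) x) = C ^ 2 * ‖A x‖ ^ 2 := by
      have := h1 A
      rw [← this]
      exact Complex.re_ofReal_mul _ _
    rw [h4, ← mul_pow, sub_nonneg]
    exact pow_le_pow_left₀ (norm_nonneg _) (h x) 2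

/-- `(c X)^q = c^q X^q` -/
theorem smul_rpow (X : H →L[ℂ] H) (c q : ℝ) (hX : 0 ≤ X) (hc : 0 ≤ c) (hq : 0 < q) :
    ((c : ℂ) • X) ^ q = ((c ^ q : ℝ) : ℂ) • X ^ q := by
  have hcont : Continuous fun x : ℝ => x ^ q :=
    continuous_id.rpow_const (fun _ => Or.inr hq.le)
  have hcX : (0 : H →L[ℂ] H) ≤ c • X := smul_nonneg hc hX
  have h0 : ∀ (r : ℝ) (W : H →L[ℂ] H), ((r : ℂ) • W) = r • W := fun r W => Complex.coe_smul r W
  rw [h0, h0, CFC.rpow_eq_cfc_real hcX, CFC.rpow_eq_cfc_real hX,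
    ← cfc_comp_smul c (fun x : ℝ => x ^ q) X hcont.continuousOn (IsSelfAdjoint.of_nonneg hX),
    ← cfc_smul (c ^ q) (fun x : ℝ => x ^ q) X hcont.continuousOn]
  refine cfc_congr fun x hx => ?_
  have hx0 : 0 ≤ x := spectrum_nonneg_of_nonneg hX hx
  change (c * x) ^ q = c ^ q * x ^ q
  exact Real.mul_rpow hc hx0

theorem nstar (W : H →L[ℂ] H) : ‖star W‖ = ‖W‖ := norm_star W

theorem smul_le1 {c : ℝ} {X Y : H →L[ℂ] H} (hc : 0 ≤ c) (h : X ≤ Y) :
    (c : ℂ) • X ≤ (c : ℂ) • Y := by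
  rw [Complex.coe_smul, Complex.coe_smul]
  exact smul_le_smul_of_nonneg_left h hc

theorem smul_le2 {c d : ℝ} {X : H →L[ℂ] H} (hc : c ≤ d) (h : 0 ≤ X) :
    (c : ℂ) • X ≤ (d : ℂ) • X := by
  rw [Complex.coe_smul, Complex.coe_smul]
  exact smul_le_smul_of_nonneg_right hc h

end

theorem fin (hDIA : S_DIA) (hEPW : S_EPW) (hKER : S_KER) (hTSG : S_TSG) (hTWB : S_TWB) :
    S_FIN := by
  intro a b ha ha1 hb hanti hev
  obtain ⟨Y, Z, hYZ, hZY, hYs, hZs, hYn, hT, hD⟩ := hDIA b hb hanti hev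
  have h1a : 0 < 1 - a := by linarith
  have hmax : max a (1 - a) < 1 := max_lt ha1 (by linarith)
  obtain ⟨q, hq1, hq2⟩ := exists_rat_btwn hmax
  have hqa : a < (q : ℝ) := lt_of_le_of_lt (le_max_left _ _) hq1
  have hqb : 1 - a < (q : ℝ) := lt_of_le_of_lt (le_max_right _ _) hq1
  have hq0 : 0 < (q : ℝ) := ha.trans hqa
  have hq0' : 0 < q := by exact_mod_cast hq0
  obtain ⟨m, hm⟩ := Int.eq_ofNat_of_zero_le (Rat.num_pos.2 hq0').le
  set n : ℕ := q.den with hn
  have hn0 : 0 < (n : ℝ) := by exact_mod_cast q.den_pos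
  have hqmn : (q : ℝ) = (m : ℝ) / n := by
    have : (q : ℝ) = (q.num : ℝ) / (q.den : ℝ) := by exact_mod_cast (Rat.num_div_den q).symm
    rw [this, hm, hn]
    simp
  have hm0 : 0 < m := by
    rcases Nat.eq_zero_or_pos m with h | h
    · rw [h] at hqmn
      simp at hqmn
      rw [hqmn] at hq0'
      exact absurd hq0' (lt_irrefl _)
    · exact h
  have hmn : m < n := by
    rw [hqmn, div_lt_one hn0] at hq2
    exact_mod_cast hq2
  set α : ℝ := (1 - a) / q with hα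
  have hα0 : 0 < α := div_pos h1a hq0
  have hα1 : α < 1 := (div_lt_one hq0).2 hqb
  have hqα : (q : ℝ) * α = 1 - a := by
    rw [hα]
    field_simp
  have haα : a * (1 + α) ≤ 1 := by
    have : a * α ≤ q * α := mul_le_mul_of_nonneg_right hqa.le hα0.le
    linarith
  set p : ℝ := 1 - α with hp
  have hp0 : 0 < p := by linarith
  have hp1 : p < 1 := by linarith
  set a' : ℝ := 1 / (1 + α) with ha'
  have ha'0 : 0 < a' := by positivity
  have ha'half : 1 / 2 < a' := by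
    rw [ha']
    exact one_div_lt_one_div_of_lt (by linarith) (by linarith)
  have ha'1 : a' ≤ 1 := by
    rw [ha', div_le_one (by linarith)]
    linarith
  have haa' : a ≤ a' := by
    rw [ha', le_div_iff₀ (by linarith)]
    exact haα
  have hx : (1 - a') / a' = α := by
    rw [ha']
    field_simp
    ring
  -- (i)
  obtain ⟨C2, hC2, hD2⟩ := hD a ha ha1
  have hZn : ∀ v : L2, ‖v‖ ≤ ‖Z v‖ := by
    intro v
    have h1 : Y (Z v) = v := by
      change (Y * Z) v = v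
      rw [hYZ]
      rfl
    calc ‖v‖ = ‖Y (Z v)‖ := by rw [h1]
      _ ≤ ‖Y‖ * ‖Z v‖ := Y.le_opNorm _
      _ ≤ 1 * ‖Z v‖ := by gcongr
      _ = ‖Z v‖ := one_mul _
  have hi : ∀ x : L2, ‖R a x‖ ≤ C2 * ‖T a b x‖ := by
    intro x
    have h1 : Z (Y x) = x := by
      change (Z * Y) x = x
      rw [hZY]
      rfl
    have h2 : T a b x = Z (R a (Y x)) := by
      rw [hT a ha ha1]
      rfl
    calc ‖R a x‖ = ‖R a (Z (Y x))‖ := by rw [h1]
      _ ≤ C2 * ‖R a (Y x)‖ := hD2 (Y x)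
      _ ≤ C2 * ‖Z (R a (Y x))‖ := by
          gcongr
          exact hZn _
      _ = C2 * ‖T a b x‖ := by rw [h2]
  -- (ii)
  obtain ⟨C1, hC1, hD1⟩ := hD p hp0 hp1
  have hEα : E α = ((1 / p : ℝ) : ℂ) • (star (R p) * R p) := rfl
  have hcomp : ∀ g : L2, ‖star (R a) g‖ ≤ Real.sqrt (a' / p) * ‖R p g‖ := by
    intro g
    have h1 : R a = R a' * R (a / a') := by
      have h2 := (hTSG a' (a / a') (fun _ => 1) ha'0 ha'1 (div_pos ha ha'0)
        ((div_le_one ha'0).2 haa') (fun _ => one_pos) (fun _ _ _ => le_rfl)).1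
      have h3 : a' * (a / a') = a := by field_simp
      rw [h3] at h2
      exact h2.symm
    have h2 : ‖star (R a) g‖ ≤ ‖star (R a') g‖ := by
      have h3 : star (R a) g = star (R (a / a')) (star (R a') g) := by
        rw [h1, star_mul]
        rfl
      have h4 : ‖star (R (a / a'))‖ ≤ 1 := by
        rw [nstar]
        refine ((hTWB (a / a') (fun _ => 1) (div_pos ha ha'0) ((div_le_one ha'0).2 haa')
          (fun _ => one_pos) (fun _ _ _ => le_rfl)).2.1).trans ?_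
        rw [Real.sqrt_le_one]
        exact (div_le_one ha'0).2 haa'
      rw [h3]
      calc ‖star (R (a / a')) (star (R a') g)‖ ≤ ‖star (R (a / a'))‖ * ‖star (R a') g‖ :=
            ContinuousLinearMap.le_opNorm _ _
        _ ≤ 1 * ‖star (R a') g‖ := by gcongr
        _ = ‖star (R a') g‖ := one_mul _
    refine h2.trans ?_
    have h5 : ‖star (R a') g‖ ^ 2 = a' / p * ‖R p g‖ ^ 2 := by
      have hin : ∀ W : L2 →L[ℂ] L2, RCLike.re (inner ℂ ((star W * W) g) g) = ‖W g‖ ^ 2 := by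
        intro W
        have h2 : (star W * W) g = (ContinuousLinearMap.adjoint W) (W g) := rfl
        rw [h2, ContinuousLinearMap.adjoint_inner_left, inner_self_eq_norm_sq]
      have h6 := hin (star (R a'))
      rw [star_star, hKER.2.2 a' ha'half ha'1, hx, hEα] at h6
      rw [← h6]
      have h7 : ((a' : ℂ) • ((1 / p : ℝ) : ℂ) • (star (R p) * R p)) g =
          ((a' / p : ℝ) : ℂ) • ((star (R p) * R p) g) := by
        rw [smul_smul]
        have : (a' : ℂ) * ((1 / p : ℝ) : ℂ) = ((a' / p : ℝ) : ℂ) := by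
          rw [← Complex.ofReal_mul]
          congr 1
          ring
        rw [this]
        rfl
      rw [h7, inner_smul_left, Complex.conj_ofReal]
      have h8 := hin (R p)
      rw [← h8]
      exact Complex.re_ofReal_mul _ _
    have h9 : (0 : ℝ) ≤ a' / p := by positivity
    rw [← Real.sqrt_sq (norm_nonneg (star (R a') g)), h5, Real.sqrt_mul h9,
      Real.sqrt_sq (norm_nonneg _)]
  have hii : ∀ x : L2, ‖star (T a b) x‖ ≤ (Real.sqrt (a' / p) * C1) * ‖R p x‖ := by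
    intro x
    have h1 : star (T a b) x = Y (star (R a) (Z x)) := by
      rw [hT a ha ha1, star_mul, star_mul, hYs, hZs]
      rfl
    rw [h1]
    calc ‖Y (star (R a) (Z x))‖ ≤ ‖Y‖ * ‖star (R a) (Z x)‖ := Y.le_opNorm _
      _ ≤ 1 * ‖star (R a) (Z x)‖ := by gcongr
      _ = ‖star (R a) (Z x)‖ := one_mul _
      _ ≤ Real.sqrt (a' / p) * ‖R p (Z x)‖ := hcomp (Z x)
      _ ≤ Real.sqrt (a' / p) * (C1 * ‖R p x‖) := by
          gcongr
          exact hD1 x
      _ = (Real.sqrt (a' / p) * C1) * ‖R p x‖ := by ring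
  -- operator inequalities
  set D : ℝ := Real.sqrt (a' / p) * C1 with hDdef
  have hD0 : 0 ≤ D := by positivity
  have hop1 : T a b * star (T a b) ≤ ((D ^ 2 * p : ℝ) : ℂ) • E α := by
    have h1 := le_of_norm (R p) (star (T a b)) D hD0 hii
    rw [star_star] at h1
    refine h1.trans (le_of_eq ?_)
    rw [hEα, smul_smul, ← Complex.ofReal_mul]
    congr 2
    field_simp
  have hop2 : star (R a) * R a ≤ ((C2 ^ 2 : ℝ) : ℂ) • (star (T a b) * T a b) :=
    le_of_norm (T a b) (R a) C2 hC2 hi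
  obtain ⟨hE0, hEq⟩ := hEPW α m n hα0.le hα1 hm0 hmn
  rw [← hqmn, hqα] at hEq
  have hc0 : 0 ≤ D ^ 2 * p := by positivity
  have hpw1 : pw (T a b * star (T a b)) q ≤ (((D ^ 2 * p) ^ (q : ℝ) : ℝ) : ℂ) • E (1 - a) := by
    have h1 : pw (T a b * star (T a b)) q ≤ pw (((D ^ 2 * p : ℝ) : ℂ) • E α) q :=
      CFC.rpow_le_rpow ⟨hq0.le, hq2.le⟩ hop1
    refine h1.trans (le_of_eq ?_)
    rw [← hEq]
    exact smul_rpow (E α) (D ^ 2 * p) q hE0 hc0 hq0
  have hE1a : E (1 - a) = ((1 / a : ℝ) : ℂ) • (star (R a) * R a) := by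
    unfold E
    rw [sub_sub_cancel]
  set c : ℝ := (D ^ 2 * p) ^ (q : ℝ) with hc
  have hcn : 0 ≤ c := Real.rpow_nonneg hc0 _
  have hTT : (0 : L2 →L[ℂ] L2) ≤ star (T a b) * T a b := star_mul_self_nonneg _
  refine ⟨q, c * (1 / a) * C2 ^ 2 + 1, hq0, hq2, ?_, ?_⟩
  · have : 0 ≤ c * (1 / a) * C2 ^ 2 := by positivity
    linarith
  · refine hpw1.trans ?_
    rw [hE1a, smul_smul, ← Complex.ofReal_mul]
    have h1 : ((c * (1 / a) : ℝ) : ℂ) • (star (R a) * R a) ≤
        ((c * (1 / a) : ℝ) : ℂ) • (((C2 ^ 2 : ℝ) : ℂ) • (star (T a b) * T a b)) :=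
      smul_le1 (by positivity) hop2
    rw [smul_smul, ← Complex.ofReal_mul] at h1
    exact h1.trans (smul_le2 (by linarith) hTT)

end Pool.Agent.H308.AL
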