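import Pool.Agent.H308.AL.Stm

set_option autoImplicit false

open Filter Topology

noncomputable section

namespace Pool.Agent.H308.AL

section CS

variable {A : Type*} [CStarAlgebra A] [PartialOrder A] [StarOrderedRing A]

theorem rpow_add' {x : A} (hx : IsStrictlyPositive x) (s t : ℝ) : x ^ s * x ^ t = x ^ (s + t) :=
  (CFC.rpow_add hx.isUnit).symm

end CS

section

variable {H : Type} [NormedAddCommGroup H] [InnerProductSpace ℂ H] [CompleteSpace H]

theorem key (hI : S_INT2) {Z : H →L[ℂ] H} (hZ : IsUnit Z) (s : ℝ) (hs : 0 ≤ s) :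
    (star Z * Z) ^ (1 - s) = star Z * (Z * star Z) ^ (-s) * Z := by
  have hP0 : 0 ≤ star Z * Z := star_mul_self_nonneg Z
  have hQ0 : 0 ≤ Z * star Z := mul_star_self_nonneg Z
  have hPu : IsUnit (star Z * Z) := hZ.star.mul hZ
  have hQu : IsUnit (Z * star Z) := hZ.mul hZ.star
  have hP : IsStrictlyPositive (star Z * Z) := IsStrictlyPositive.iff_of_unital.2 ⟨hP0, hPu⟩
  have hQ : IsStrictlyPositive (Z * star Z) := IsStrictlyPositive.iff_of_unital.2 ⟨hQ0, hQu⟩
  have h1 := (hI H (star Z * Z) (Z * star Z) (star Z) hP0 hQ0 (by simp only [mul_assoc])).2 s hs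
  have h2 : (star Z * Z) ^ s * (star Z * (Z * star Z) ^ (-s) * Z) = star Z * Z := by
    rw [← mul_assoc, ← mul_assoc, h1, mul_assoc (star Z), rpow_add' hQ, add_neg_cancel,
      CFC.rpow_zero _ hQ0, mul_one]
  have h3 : (star Z * Z) ^ s * (star Z * Z) ^ (1 - s) = star Z * Z := by
    rw [rpow_add' hP, add_sub_cancel, CFC.rpow_one _ hP0]
  have h4 : IsUnit ((star Z * Z) ^ s) := IsUnit.cfcRpow hPu s hP0
  exact h4.mul_left_cancel (h3.trans h2.symm)

end

theorem fur0 (hI : S_INT2) : S_FUR0 := by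
  intro H _ _ _ A C q hq0 hq1 hA0 hC0 hAu hCu hle
  have hA : IsStrictlyPositive A := IsStrictlyPositive.iff_of_unital.2 ⟨hA0, hAu⟩
  have hC : IsStrictlyPositive C := IsStrictlyPositive.iff_of_unital.2 ⟨hC0, hCu⟩
  set a := CFC.sqrt A with ha
  set d := CFC.sqrt C with hd
  have ha0 : 0 ≤ a := CFC.sqrt_nonneg A
  have hd0 : 0 ≤ d := CFC.sqrt_nonneg C
  have hasa : star a = a := (IsSelfAdjoint.of_nonneg ha0).star_eq
  have hdsa : star d = d := (IsSelfAdjoint.of_nonneg hd0).star_eq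
  have haa : a * a = A := CFC.sqrt_mul_sqrt_self A hA0
  have hdd : d * d = C := CFC.sqrt_mul_sqrt_self C hC0
  have hau : IsUnit a := (CFC.isUnit_sqrt_iff A hA0).2 hAu
  have hdu : IsUnit d := (CFC.isUnit_sqrt_iff C hC0).2 hCu
  have har : a = A ^ (1 / 2 : ℝ) := by rw [ha, CFC.sqrt_eq_rpow]
  have hdr : d = C ^ (1 / 2 : ℝ) := by rw [hd, CFC.sqrt_eq_rpow]
  have hZ : IsUnit (d * a) := hdu.mul hau
  have hZs : star (d * a) = a * d := by rw [star_mul, hasa, hdsa]
  have hP : star (d * a) * (d * a) = a * C * a := by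
    rw [hZs, ← hdd]
    simp only [mul_assoc]
  have hQ : (d * a) * star (d * a) = d * A * d := by
    rw [hZs, ← haa]
    simp only [mul_assoc]
  have hk := key hI hZ (1 - q) (by linarith)
  rw [hP, hQ, hZs, sub_sub_cancel] at hk
  rw [hk]
  -- `d A d ≥ C^(1+q)`
  have h1 : C ^ (1 + q) ≤ d * A * d := by
    have h2 : d * C ^ q * d ≤ d * A * d := by
      have := star_left_conjugate_le_conjugate hle d
      rwa [hdsa] at this
    have h3 : d * C ^ q * d = C ^ (1 + q) := by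
      rw [hdr, rpow_add' hC, rpow_add' hC]
      congr 1
      ring
    rwa [h3] at h2
  have hCp : IsStrictlyPositive (C ^ (1 + q)) := IsStrictlyPositive.rpow C (1 + q) hC
  have hQp : IsStrictlyPositive (d * A * d) := hCp.of_le h1
  have h4 : (C ^ (1 + q)) ^ (1 - q) ≤ (d * A * d) ^ (1 - q) :=
    CFC.rpow_le_rpow ⟨by linarith, by linarith⟩ h1
  have h5 : (C ^ (1 + q)) ^ (1 - q) = C ^ ((1 + q) * (1 - q)) :=
    CFC.rpow_rpow_of_exponent_nonneg C (1 + q) (1 - q) (by linarith) (by linarith) hC0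
  rw [h5] at h4
  have h6 : (d * A * d) ^ (-(1 - q)) ≤ C ^ (-((1 + q) * (1 - q))) := by
    have h7 := CStarAlgebra.rpow_neg_one_le_rpow_neg_one
      (a := C ^ ((1 + q) * (1 - q))) (b := (d * A * d) ^ (1 - q)) h4
      (IsStrictlyPositive.rpow C _ hC)
    have h8 : ((d * A * d) ^ (1 - q)) ^ (-1 : ℝ) = (d * A * d) ^ (-(1 - q)) := by
      rw [CFC.rpow_rpow (d * A * d) (1 - q) (-1) (sub_ne_zero.2 hq1.ne') hQp]
      congr 1
      ring
    have h9 : (C ^ ((1 + q) * (1 - q))) ^ (-1 : ℝ) = C ^ (-((1 + q) * (1 - q))) := by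
      rw [CFC.rpow_rpow C ((1 + q) * (1 - q)) (-1)
        (mul_ne_zero (by linarith) (sub_ne_zero.2 hq1.ne')) hC]
      congr 1
      ring
    rwa [h8, h9] at h7
  have h10 : a * d * (d * A * d) ^ (-(1 - q)) * (d * a) ≤
      a * d * C ^ (-((1 + q) * (1 - q))) * (d * a) := by
    have := star_left_conjugate_le_conjugate h6 (d * a)
    rwa [hZs] at this
  refine h10.trans ?_
  have h11 : a * d * C ^ (-((1 + q) * (1 - q))) * (d * a) = a * C ^ (q * q) * a := by
    have : d * C ^ (-((1 + q) * (1 - q))) * d = C ^ (q * q) := by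
      rw [hdr, rpow_add' hC, rpow_add' hC]
      congr 1
      ring
    rw [← this]
    simp only [mul_assoc]
  rw [h11]
  have h12 : C ^ (q * q) ≤ A ^ q := by
    rw [← CFC.rpow_rpow_of_exponent_nonneg C q q hq0.le hq0.le hC0]
    exact CFC.rpow_le_rpow ⟨hq0.le, hq1.le⟩ hle
  have h13 : a * C ^ (q * q) * a ≤ a * A ^ q * a := by
    have := star_left_conjugate_le_conjugate h12 a
    rwa [hasa] at this
  refine h13.trans (le_of_eq ?_)
  rw [har, rpow_add' hA, rpow_add' hA]
  congr 1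
  ring

end Pool.Agent.H308.AL
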