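import Pool.Agent.H308.AL.Def

/-!
# Statements (paper proof of the failure of strong convergence of iterated Aluthge transforms)

Notation: `B = ab T = |T|`, `hf T = |T|^(1/2)`, `al T` = Aluthge transform, `it T n` = its `n`-th
iterate.  All operators are bounded operators of one complex Hilbert space.
-/

set_option autoImplicit false

open Filter Topology

noncomputable section

namespace Pool.Agent.H308.AL

/-! ## Part 1: abstract tools -/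

/-- INT (intertwining).  If `X, Y` are self-adjoint and `X W = W Y` then `f(X) W = W f(Y)`.
Proof: true for `f = 1, X`, hence for polynomials (`cfc` of a polynomial is `aeval`); on an
interval `[-M, M]` containing both spectra approximate `f` uniformly by polynomials `p`
(`exists_polynomial_near_of_continuousOn`), `‖cfc f X - cfc p X‖ ≤ ε` (`norm_cfc_le`). -/
def S_INT : Prop :=
  ∀ (H : Type) [NormedAddCommGroup H] [InnerProductSpace ℂ H] [CompleteSpace H]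
    (X Y W : H →L[ℂ] H) (f : ℝ → ℝ), IsSelfAdjoint X → IsSelfAdjoint Y → Continuous f →
    X * W = W * Y → cfc f X * W = W * cfc f Y

/-- INT2: the same for the square root and for real powers `r ≥ 0` of positive operators.
Proof: INT with `f = √`, `f x = |x| ^ r` (or `(max x 0)^r`), `CFC.sqrt_eq_real_sqrt`,
`CFC.rpow_eq_cfc_real`. -/
def S_INT2 : Prop :=
  ∀ (H : Type) [NormedAddCommGroup H] [InnerProductSpace ℂ H] [CompleteSpace H]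
    (X Y W : H →L[ℂ] H), 0 ≤ X → 0 ≤ Y → X * W = W * Y →
    (CFC.sqrt X * W = W * CFC.sqrt Y ∧ ∀ r : ℝ, 0 ≤ r → X ^ r * W = W * Y ^ r)

/-- DGL (Douglas lemma, dense range).  Proof: the map `A h ↦ B h` is well defined and bounded by
`C` on the dense subspace `Ran A`; extend by continuity
(`ContinuousLinearMap.extend` / `LinearMap.extendOfNorm`). -/
def S_DGL : Prop :=
  ∀ (H : Type) [NormedAddCommGroup H] [InnerProductSpace ℂ H] [CompleteSpace H]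
    (A B : H →L[ℂ] H) (C : ℝ), 0 ≤ C → DenseRange A → (∀ h, ‖B h‖ ≤ C * ‖A h‖) →
    ∃ X : H →L[ℂ] H, X * A = B ∧ ‖X‖ ≤ C

/-- BAS (basic facts on `|T|`, `|T|^(1/2)` for injective `T`).
Proof: `ab T * ab T = T* T`; `‖|T| h‖² = ⟨T*T h, h⟩ = ‖T h‖²`;  injectivity of `T` gives injectivity
of `|T|`, hence of `hf T` (`hf T * hf T = ab T`); an injective self-adjoint operator has dense
range (orthogonal complement of the range is the kernel). -/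
def S_BAS : Prop :=
  ∀ (H : Type) [NormedAddCommGroup H] [InnerProductSpace ℂ H] [CompleteSpace H]
    (T : H →L[ℂ] H), 0 ≤ ab T ∧ 0 ≤ hf T ∧ ab T * ab T = star T * T ∧ hf T * hf T = ab T ∧
      (∀ h, ‖ab T h‖ = ‖T h‖) ∧ (Function.Injective T → Function.Injective (ab T) ∧
        Function.Injective (hf T) ∧ DenseRange (ab T) ∧ DenseRange (hf T))

/-- ALU (existence and uniqueness of the Aluthge transform of an injective `T`).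
Proof: DGL with `A = |T|`, `B = T`, `C = 1` gives `U` with `U |T| = T`, `‖U‖ ≤ 1`; `‖U y‖ = ‖y‖` on
the dense range of `|T|`, so `U` is an isometry, `U* U = 1`; `U` is the only operator with
`U |T| = T`.  So `IsPolar T U` and `al T = hf T * U * hf T`.  It is injective (composition of
injective maps). `al T * hf T = hf T * U * ab T = hf T * T`. -/
def S_ALU : Prop :=
  ∀ (H : Type) [NormedAddCommGroup H] [InnerProductSpace ℂ H] [CompleteSpace H]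
    (T : H →L[ℂ] H), Function.Injective T →
    (IsAluthge T (al T) ∧ (∀ S, IsAluthge T S → S = al T) ∧ Function.Injective (al T) ∧
      al T * hf T = hf T * T ∧
      ∃ U : H →L[ℂ] H, star U * U = 1 ∧ U * ab T = T ∧ al T = hf T * U * hf T)

/-- CMP (two-sided comparison).  Proof.  One side: `Y T = R Y` ⇒ `Y', ‖Y'‖ ≤ ‖Y‖`,
`Y' hf T = hf R Y`, `Y' al T = al R Y'`.  Let `c = ‖Y‖ > 0` (if `Y = 0` take `Y' = 0`), `y = Y / c`.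
`(y*|R|y)² = y*|R|(y y*)|R|y ≤ y*|R|²y = y* R* R y = T* y* y T ≤ T* T = |T|²` and `sqrt` is operator
monotone (`CFC.monotone_sqrt`), so `y*|R|y ≤ |T|`, i.e. `‖hf R (Y h)‖² ≤ c² ‖hf T h‖²`.  DGL gives
`Y'` with `Y' hf T = hf R Y`, `‖Y'‖ ≤ c`.  Then `Y' (al T) (hf T) = Y' hf T T = hf R Y T = hf R R Y
= al R hf R Y = al R Y' hf T` and `hf T` has dense range.  Other side: `Z R = T Z`, same
construction gives `Z' hf R = hf T Z`; `Z' Y' hf T = Z' hf R Y = hf T Z Y = hf T`, so `Z' Y' = 1`,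
similarly `Y' Z' = 1`. -/
def S_CMP : Prop :=
  ∀ (H : Type) [NormedAddCommGroup H] [InnerProductSpace ℂ H] [CompleteSpace H]
    (T R Y Z : H →L[ℂ] H), Function.Injective T → Function.Injective R → Y * Z = 1 → Z * Y = 1 →
    Y * T = R * Y → ∃ Y' Z' : H →L[ℂ] H, Y' * Z' = 1 ∧ Z' * Y' = 1 ∧ Y' * al T = al R * Y' ∧
      ‖Y'‖ ≤ ‖Y‖ ∧ ‖Z'‖ ≤ ‖Z‖

/-- HNZ.  Proof: `T = U B`, `B = |T|`, `h = hf T`, `al T = h U h`, so for `k ≥ 1`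
`(al T)^k = h Y h` with `Y = T^(k-1) U`.  Let `Z = h Y h`.  `W := Z* Z = h Y* B Y h` is self-adjoint
so `‖W‖^m = ‖W^m‖` for `m = 2^j`, and `W^m = h (Y* B Y B)^(m-1) Y* B Y h`, so
`‖W‖^m ≤ C ‖Y* B Y B‖^(m-1)` with `C` independent of `m`; hence `‖W‖ ≤ ‖Y* B Y B‖ ≤ ‖B Y‖ ‖Y B‖`.
`Y B = T^(k-1) U B = T^k`, `‖B Y‖ = ‖U B Y‖ = ‖T^k U‖ ≤ ‖T^k‖` (`‖B y‖ = ‖T y‖`). So
`‖(al T)^k‖² = ‖W‖ ≤ ‖T^k‖²`. (Or use spectral radius of `X Y` and `Y X`.) -/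
def S_HNZ : Prop :=
  ∀ (H : Type) [NormedAddCommGroup H] [InnerProductSpace ℂ H] [CompleteSpace H]
    (T : H →L[ℂ] H), Function.Injective T → ∀ k : ℕ, ‖(al T) ^ k‖ ≤ ‖T ^ k‖

/-- FUR0 (a case of Furuta's inequality, invertible case).  Proof: `a = sqrt A`, `c = sqrt C`,
`Z = c a`, so `Z* Z = a C a`, `Z Z* = c A c ≥ c C^q c = C^(1+q)`.  `(Z*Z)^q = Z* (ZZ*)^(q-1) Z`
(intertwining `Z* f(ZZ*) = f(Z*Z) Z*`), and `(ZZ*)^(q-1) = ((ZZ*)^(1-q))⁻¹ ≤ ((C^(1+q))^(1-q))⁻¹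
= C^(q²-1)` (operator monotonicity of `x^(1-q)` and antitonicity of the inverse).  So
`(Z*Z)^q ≤ a c C^(q²-1) c a = a C^(q²) a = a (C^q)^q a ≤ a A^q a = A^(1+q)`. -/
def S_FUR0 : Prop :=
  ∀ (H : Type) [NormedAddCommGroup H] [InnerProductSpace ℂ H] [CompleteSpace H]
    (A C : H →L[ℂ] H) (q : ℝ), 0 < q → q < 1 → 0 ≤ A → 0 ≤ C → IsUnit A → IsUnit C → C ^ q ≤ A →
    (CFC.sqrt A * C * CFC.sqrt A) ^ q ≤ A ^ (1 + q)

/-- FUR.  Proof: for `ε > 0` put `C' = C + ε`, `A' = A + ε^q`; then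
`C'^q ≤ C^q + ε^q ≤ A'` (scalar inequality `(t+ε)^q ≤ t^q + ε^q`, functional calculus of `C`).
Apply FUR0 and let `ε → 0`: `CFC.continuousOn_sqrt`, `CFC.continuousOn_rpow`, closedness of the
order. -/
def S_FUR : Prop :=
  ∀ (H : Type) [NormedAddCommGroup H] [InnerProductSpace ℂ H] [CompleteSpace H]
    (A C : H →L[ℂ] H) (q : ℝ), 0 < q → q < 1 → 0 ≤ A → 0 ≤ C → C ^ q ≤ A →
    (CFC.sqrt A * C * CFC.sqrt A) ^ q ≤ A ^ (1 + q)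

/-- STEP.  Let `B = |T|`, `C = |T*|`, `T = U B`, `U* U = 1`.  Then `C = U B U*`
(`U B U* ≥ 0` has square `T T*`), `C U = U B`, so `C^q U = U B^q` (INT2) and `U* C^q U = B^q`.
From `C^q ≤ M B`: `U* B U ≥ M⁻¹ B^q`, so `|al T|² = h U* B U h ≥ M⁻¹ B^(1+q)` (`h = hf T`), and by
monotonicity of the square root `B^((1+q)/2) ≤ √M |al T|` (second claim).
FUR with `A = M B`: `M^q (h C h)^q ≤ M^(1+q) B^(1+q)` i.e. `(h C h)^q ≤ M B^(1+q) ≤ M² |al T|²`; and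
`h C h = h U B U* h = (al T)(al T)* = |(al T)*|²`, so `|(al T)*|^(2q) ≤ M² |al T|²`; square roots:
`|(al T)*|^q ≤ M |al T|` (first claim). -/
def S_STEP : Prop :=
  ∀ (H : Type) [NormedAddCommGroup H] [InnerProductSpace ℂ H] [CompleteSpace H]
    (T : H →L[ℂ] H) (q M : ℝ), Function.Injective T → 0 < q → q < 1 → 1 ≤ M →
    (ab (star T)) ^ q ≤ (M : ℂ) • ab T →
    ((ab (star (al T))) ^ q ≤ (M : ℂ) • ab (al T) ∧
      (ab T) ^ ((1 + q) / 2) ≤ ((Real.sqrt M : ℝ) : ℂ) • ab (al T))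

/-- PW0: `B^ε → 1` strongly for an injective positive `B`.  Proof: `‖B^ε‖ ≤ max 1 ‖B‖` for
`0 < ε ≤ 1`; on `B z`: `‖B^ε B z - B z‖ ≤ sup_(0≤t≤‖B‖) |t^(1+ε) - t| ‖z‖ → 0`; `Ran B` is dense.
(`η^n → 0`, so this is used as `B^(η^n) x → x`.) -/
def S_PW0 : Prop :=
  ∀ (H : Type) [NormedAddCommGroup H] [InnerProductSpace ℂ H] [CompleteSpace H]
    (B : H →L[ℂ] H) (η : ℝ), 0 ≤ B → Function.Injective B → 0 < η → η < 1 →
    ∀ x : H, Tendsto (fun n : ℕ => (B ^ (η ^ n : ℝ)) x) atTop (𝓝 x)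

/-- LOW (lower bound for the iterates).  Proof: from `(T T*)^q ≤ K T* T` (`K ≥ 1` w.l.o.g.) the
square root gives `|T*|^q ≤ M |T|`, `M = √K`.  By STEP the inequality holds for all iterates, and
`|T_n|^η ≤ √M |T_(n+1)|`, `η = (1+q)/2 < 1`.  By induction (operator monotonicity of `x^η`)
`|T_n| ≥ c |T|^(η^n)`, `c = M^(-1/(2(1-η)))` (the constant `c` satisfies `M^(-1/2) c^η = c`,
`c ≤ 1`).  So `‖T_n x‖ ‖x‖ = ‖|T_n| x‖ ‖x‖ ≥ ⟨|T_n| x, x⟩ ≥ c ⟨|T|^(η^n) x, x⟩ → c ‖x‖²` by PW0;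
eventually `≥ (c/2) ‖x‖²`. -/
def S_LOW : Prop :=
  ∀ (H : Type) [NormedAddCommGroup H] [InnerProductSpace ℂ H] [CompleteSpace H]
    (T : H →L[ℂ] H) (q K : ℝ), Function.Injective T → 0 < q → q < 1 → 1 ≤ K →
    pw (T * star T) q ≤ (K : ℂ) • (star T * T) →
    ∃ c : ℝ, 0 < c ∧ ∀ x : H, ∀ᶠ n in atTop, c * ‖x‖ ≤ ‖it T n x‖

/-- ITP (iterates of the pure model).  `R = λ U E_κ`, `κ = (1-a)/2`; then
`it R n = λ U E_(κ s^n)`, `s = (1+a)/2`.  Proof: for `0 ≤ κ' < 1`, `V = λ U E_κ'`: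
`V* V = λ² E_(κ'/2)^4...= (λ E_κ')²` and `λ E_κ' = λ E_(κ'/2) E_(κ'/2) ≥ 0`, so `|V| = λ E_κ'`,
`hf V = √λ E_(κ'/2)`, `V` is injective, polar isometry `U`, so by ALU (uniqueness of `U` on the dense
range of `|V|`) `al V = λ E_(κ'/2) U E_(κ'/2) = λ U E_(a κ'/2) E_(κ'/2) = λ U E_(κ' (1+a)/2)`. -/
def S_ITP : Prop :=
  ∀ (H : Type) [NormedAddCommGroup H] [InnerProductSpace ℂ H] [CompleteSpace H]
    (a l : ℝ) (E : ℝ → H →L[ℂ] H) (U : H →L[ℂ] H), 0 < a → a < 1 → 0 < l → Pure a E U →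
    ∀ n : ℕ, it ((l : ℂ) • (U * E ((1 - a) / 2))) n =
      (l : ℂ) • (U * E ((1 - a) / 2 * ((1 + a) / 2) ^ n))

/-- PUR.  Put `κ' = κ s^n ≤ (1-a)/2`, `V = it R n = λ U E_κ'`.  Then
`V^k = λ^k U^k E_(κ' (1 + a + ... + a^(k-1)))` so `‖V^k y‖ = λ^k ‖E_(κ'(1-a^k)/(1-a)) y‖ ≥
λ^k ‖E_(r κ') y‖`, `r = ⌈1/(1-a)⌉` (`r κ' < 1`, `E` is a semigroup of contractions).
`f(j) = ‖E_(j κ') y‖`, `0 ≤ j ≤ r`, is log-convex: `f(j)² = ⟨E_((j-1)κ') y, E_((j+1)κ') y⟩ ≤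
f(j-1) f(j+1)`, so `f(1)^r ≤ f(r) f(0)^(r-1)`.  As `‖V y‖ = λ f(1)`:
`‖V y‖^r λ^k ≤ λ^r ‖V^k y‖ ‖y‖^(r-1)`. -/
def S_PUR : Prop :=
  ∀ (H : Type) [NormedAddCommGroup H] [InnerProductSpace ℂ H] [CompleteSpace H]
    (a l : ℝ) (E : ℝ → H →L[ℂ] H) (U : H →L[ℂ] H), 0 < a → a < 1 → 0 < l → Pure a E U →
    ∃ r : ℕ, 1 ≤ r ∧ ∀ (n k : ℕ) (y : H),
      ‖it ((l : ℂ) • (U * E ((1 - a) / 2))) n y‖ ^ r * l ^ k ≤
        l ^ r * ‖((it ((l : ℂ) • (U * E ((1 - a) / 2))) n) ^ k) y‖ * ‖y‖ ^ (r - 1)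

/-- SIM.  Transfer of PUR to a similar operator.  Proof: CMP iterated gives, for every `n`,
`Y_n, Z_n` inverse to each other, `‖Y_n‖ ≤ ‖Y‖`, `‖Z_n‖ ≤ ‖Z‖`, `Y_n T_n = R_n Y_n` (all iterates are
injective, ALU).  `‖T_n x‖ = ‖Z_n Y_n T_n x‖ ≤ ‖Z‖ ‖R_n Y_n x‖`, and
`‖R_n Y_n x‖^r l^k ≤ D ‖R_n^k Y_n x‖ ‖Y_n x‖^(r-1)` with `R_n^k Y_n = Y_n T_n^k`. -/
def S_SIM : Prop :=
  ∀ (H : Type) [NormedAddCommGroup H] [InnerProductSpace ℂ H] [CompleteSpace H]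
    (T R Y Z : H →L[ℂ] H) (l D : ℝ) (r : ℕ), Function.Injective T → Function.Injective R →
    Y * Z = 1 → Z * Y = 1 → Y * T = R * Y → 0 < l → 0 ≤ D → 1 ≤ r →
    (∀ (n k : ℕ) (y : H), ‖it R n y‖ ^ r * l ^ k ≤ D * ‖((it R n) ^ k) y‖ * ‖y‖ ^ (r - 1)) →
    ∃ C : ℝ, 0 ≤ C ∧ ∀ (n k : ℕ) (x : H),
      ‖it T n x‖ ^ r * l ^ k ≤ C * ‖((it T n) ^ k) x‖ * ‖x‖ ^ (r - 1)

/-- SPC (quasinormal operators).  Proof: `A = L* L` commutes with `L`, so `L*^k L^k = A^k`,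
`‖L^k x‖² = ⟨A^k x, x⟩`.  (a) If `‖L^k x‖ ≥ c l^k ‖x‖` for all `k, x` then `A^k ≥ c² l^(2k)`; every
`t ∈ spectrum A` has `t^k ∈ spectrum (A^k)`, `t^k ≥ c² l^(2k)` for all `k`, so `t ≥ l²`, `A ≥ l²`.
(b) similarly from above. -/
def S_SPC : Prop :=
  ∀ (H : Type) [NormedAddCommGroup H] [InnerProductSpace ℂ H] [CompleteSpace H]
    (L : H →L[ℂ] H) (l c : ℝ), 0 < l → 0 < c → QuasiNormal L →
    ((∀ (k : ℕ) (x : H), c * l ^ k * ‖x‖ ≤ ‖(L ^ k) x‖) → ∀ x, l * ‖x‖ ≤ ‖L x‖) ∧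
    ((∀ (k : ℕ) (x : H), ‖(L ^ k) x‖ ≤ c * l ^ k * ‖x‖) → ∀ x, ‖L x‖ ≤ l * ‖x‖)

/-- UP.  Proof: `‖it T n‖ ≤ ‖T‖` (HNZ with `k = 1`), so `(it T n)^k → L^k` strongly for every `k`.
Limits in the two hypotheses: `c ‖x‖ ≤ ‖L x‖`, `‖L x‖^r l^k ≤ C ‖L^k x‖ ‖x‖^(r-1)`.  So
`c^r ‖x‖^r l^k ≤ C ‖L^k x‖ ‖x‖^(r-1)`, `‖L^k x‖ ≥ c' l^k ‖x‖` with `c' = c^r/(C+1)`, and SPC(a). -/
def S_UP : Prop :=
  ∀ (H : Type) [NormedAddCommGroup H] [InnerProductSpace ℂ H] [CompleteSpace H]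
    (T L : H →L[ℂ] H) (l c C : ℝ) (r : ℕ), Function.Injective T → 0 < l → 0 < c → 0 ≤ C → 1 ≤ r →
    (∀ x : H, ∀ᶠ n in atTop, c * ‖x‖ ≤ ‖it T n x‖) →
    (∀ (n k : ℕ) (x : H), ‖it T n x‖ ^ r * l ^ k ≤ C * ‖((it T n) ^ k) x‖ * ‖x‖ ^ (r - 1)) →
    SOT (it T) L → QuasiNormal L → ∀ x, l * ‖x‖ ≤ ‖L x‖

/-- DOWN.  Proof: by HNZ `‖(it T n)^k‖ ≤ ‖T^k‖ ≤ C m^k`; `(it T n)^k → L^k` strongly, so
`‖L^k x‖ ≤ C m^k ‖x‖`, and SPC(b). -/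
def S_DOWN : Prop :=
  ∀ (H : Type) [NormedAddCommGroup H] [InnerProductSpace ℂ H] [CompleteSpace H]
    (T L : H →L[ℂ] H) (m C : ℝ), Function.Injective T → 0 < m → 0 < C →
    (∀ k : ℕ, ‖T ^ k‖ ≤ C * m ^ k) → SOT (it T) L → QuasiNormal L → ∀ x, ‖L x‖ ≤ m * ‖x‖

/-- SC1: `StarCont` families form a *-algebra closed under uniform limits.  (Product: `A_s B_s x -
A_t B_t x = A_s (B_s x - B_t x) + (A_s - A_t) B_t x`.)  Then `cfc f (A_s)` for self-adjoint `A_s`: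
polynomial approximation of `f` on `[-M, M]`. -/
def S_SC1 : Prop :=
  ∀ (H : Type) [NormedAddCommGroup H] [InnerProductSpace ℂ H] [CompleteSpace H]
    (X : Type) [TopologicalSpace X] (A : X → H →L[ℂ] H) (f : ℝ → ℝ), Continuous f →
    (∀ s, IsSelfAdjoint (A s)) → StarCont A → StarCont fun s => cfc f (A s)

/-- SC2: products, adjoints and uniform limits. -/
def S_SC2 : Prop :=
  ∀ (H : Type) [NormedAddCommGroup H] [InnerProductSpace ℂ H] [CompleteSpace H]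
    (X : Type) [TopologicalSpace X] (A B : X → H →L[ℂ] H),
    (StarCont A → StarCont B → StarCont fun s => A s * B s) ∧
    (StarCont A → StarCont fun s => star (A s)) ∧
    ((∀ ε : ℝ, 0 < ε → ∃ D : X → H →L[ℂ] H, StarCont D ∧ ∀ s, ‖A s - D s‖ ≤ ε) → StarCont A)

/-- CONT (*-strong continuity of the Aluthge transform).  Proof: `|T_s| = cfc √ (T_s* T_s)`,
`hf T_s = cfc √ |T_s|` are StarCont by SC1, SC2.  For `ε > 0` let `g(t) = 1/(√t + ε)` and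
`D_s = hf T_s * T_s * g(|T_s|)`; with `T_s = U_s |T_s|` (ALU)
`al T_s - D_s = hf T_s U_s (√|T_s| - |T_s| g(|T_s|))` and `|√t - t/(√t + ε)| ≤ ε`, so
`‖al T_s - D_s‖ ≤ ε sup ‖hf T_s‖`. -/
def S_CONT : Prop :=
  ∀ (H : Type) [NormedAddCommGroup H] [InnerProductSpace ℂ H] [CompleteSpace H]
    (X : Type) [TopologicalSpace X] (A : X → H →L[ℂ] H), (∀ s, Function.Injective (A s)) →
    StarCont A → StarCont fun s => al (A s)

/-- RED (reduction to a reducing subspace).  `J* J = 1`, `S J = J T`, `S* J = J T*`.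
Proof: `S* S J = J T* T`, so `|S| J = J |T|`, `hf S J = J hf T` (INT2).  `al S J hf T = al S hf S J =
hf S S J = J hf T T = J al T hf T`, `hf T` has dense range.  For the adjoints: `U_S J |T| = U_S |S| J
= S J = J T = J U_T |T|` so `U_S J = J U_T`; `|S| U_S* J = S* J = J T* = J |T| U_T* = |S| J U_T*` and
`|S|` is injective so `U_S* J = J U_T*`; multiply. -/
def S_RED : Prop :=
  ∀ (H : Type) [NormedAddCommGroup H] [InnerProductSpace ℂ H] [CompleteSpace H]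
    (S T J : H →L[ℂ] H), Function.Injective S → Function.Injective T → star J * J = 1 →
    S * J = J * T → star S * J = J * star T →
    (al S * J = J * al T ∧ star (al S) * J = J * star (al T))

/-- RED2.  Proof: `T_n x = J* S_n J x → J* K J x`, put `L = J* K J`; `K J x = lim S_n J x =
lim J T_n x = J L x`, and `⟨K* J x, y⟩ = lim ⟨J x, S_n y⟩ = lim ⟨J T_n* x, y⟩ = lim ⟨x, T_n J* y⟩ =
⟨x, L J* y⟩`, so `K* J = J L*`.  `J L L* L = K K* K J = K* K K J = J L* L L`. -/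
def S_RED2 : Prop :=
  ∀ (H : Type) [NormedAddCommGroup H] [InnerProductSpace ℂ H] [CompleteSpace H]
    (S T : ℕ → H →L[ℂ] H) (J K : H →L[ℂ] H), star J * J = 1 →
    (∀ n, S n * J = J * T n) → (∀ n, star (S n) * J = J * star (T n)) →
    SOT S K → QuasiNormal K → ∃ L, SOT T L ∧ QuasiNormal L

/-- BAIRE.  Proof: `ℕ → Bool` is compact Hausdorff, hence Baire.  Let `α < g < β`.  The open sets
`U_m = ⋃_(n ≥ m) {s | f n s > g}` contain all eventually-true `s`, hence are dense; the open sets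
`V_m = ⋃_(n ≥ m) {s | f n s < g'}` (`α < g' < g`) contain all eventually-false `s`, hence are dense.
A point `s` of `⋂ U_m ∩ ⋂ V_m` has `f n s > g` and `f n s < g'` infinitely often: no limit. -/
def S_BAIRE : Prop :=
  ∀ (f : ℕ → (ℕ → Bool) → ℝ) (F : (ℕ → Bool) → ℝ) (α β : ℝ), α < β → (∀ n, Continuous (f n)) →
    (∀ s, Tendsto (fun n => f n s) atTop (𝓝 (F s))) →
    (∀ s, (∃ N, ∀ k ≥ N, s k = true) → β ≤ F s) →
    (∀ s, (∃ N, ∀ k ≥ N, s k = false) → F s ≤ α) → False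

/-! ## Part 2: the concrete operators -/

/-- SCH (Schur test, lower triangular).  Proof: `|∑_k m_jk x_k|² ≤ (∑_k m_jk)(∑_k m_jk |x_k|²) ≤
α ∑_k m_jk |x_k|²`; sum over `j < N` and exchange: `≤ α α' ‖x‖²`.  So the sequence is in `ℓ²`, and the
linear map is bounded by `√(α α')`. -/
def S_SCH : Prop :=
  ∀ (m : ℕ → ℕ → ℝ) (α α' : ℝ), (∀ j k, 0 ≤ m j k) →
    (∀ j, ∑ k ∈ Finset.range (j + 1), m j k ≤ α) →
    (∀ k N, ∑ j ∈ Finset.Ico k N, m j k ≤ α') →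
    IsMat m (mat m) ∧ ‖mat m‖ ≤ Real.sqrt (α * α') ∧ ∀ M, IsMat m M → M = mat m

/-- ROW: row sums are `a` (binomial theorem), column sums are `≤ 1`
(`∑_j binom(j,k) (1-a)^(j-k) = a^(-(k+1))`, `tsum_choose_mul_geometric_of_norm_lt_one`). -/
def S_ROW : Prop :=
  ∀ a : ℝ, 0 < a → a ≤ 1 → (∀ j k, 0 ≤ t a j k) ∧
    (∀ j, ∑ k ∈ Finset.range (j + 1), t a j k = a) ∧
    (∀ k N, ∑ j ∈ Finset.Ico k N, t a j k ≤ 1)

/-- WTS (the weights).  `0 < bs s (k+1) ≤ bs s k`, `bs s j / bs s k ≥ ((k+1)/(j+1))²` for `k ≤ j`;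
eventually constant for eventually true `s`, and `bs s j / bs s k ≤ C ((k+1)/(j+1))²` for eventually
false `s`. -/
def S_WTS : Prop :=
  ∀ s : ℕ → Bool, (∀ k, 0 < bs s k) ∧ (∀ j k, k ≤ j → bs s j ≤ bs s k) ∧
    (∀ j k : ℕ, k ≤ j → (((k : ℝ) + 1) / ((j : ℝ) + 1)) ^ 2 * bs s k ≤ bs s j) ∧
    ((∃ N, ∀ k ≥ N, s k = true) → ∃ N, ∀ k ≥ N, bs s k = bs s N) ∧
    ((∃ N, ∀ k ≥ N, s k = false) → ∃ C : ℝ, 1 ≤ C ∧ ∀ j k : ℕ, k ≤ j →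
      bs s j ≤ C * (((k : ℝ) + 1) / ((j : ℝ) + 1)) ^ 2 * bs s k)

/-- TWB.  Bounded, `‖T a b‖ ≤ √a`, injective (lower triangular, diagonal entries `a^(k+1) ≠ 0`).
Proof: SCH with `tw a b j k ≤ t a j k` for `k ≤ j` — apply SCH to the matrix truncated to `k ≤ j`
(entries `k > j` are irrelevant: `binom(j,k) = 0`, so `t a j k = 0` there). -/
def S_TWB : Prop :=
  ∀ (a : ℝ) (b : ℕ → ℝ), 0 < a → a ≤ 1 → (∀ k, 0 < b k) → (∀ j k, k ≤ j → b j ≤ b k) →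
    IsMat (tw a b) (T a b) ∧ ‖T a b‖ ≤ Real.sqrt a ∧ Function.Injective (T a b)

/-- TSG (semigroup).  Proof: matrix product, `binom(j,i) binom(i,k) = binom(j,k) binom(j-k,i-k)` and
the binomial theorem: `∑_i t a j i t a' i k = t (a a') j k`. Also `T 1 b = 1`. -/
def S_TSG : Prop :=
  ∀ (a a' : ℝ) (b : ℕ → ℝ), 0 < a → a ≤ 1 → 0 < a' → a' ≤ 1 → (∀ k, 0 < b k) →
    (∀ j k, k ≤ j → b j ≤ b k) → T a b * T a' b = T (a * a') b ∧ T 1 b = 1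

/-- BPW.  `T a b ^ k = T (a^k) b`, and with `p = a^k` the entries are `≤ C t p j k ((k+1)/(j+1))²`:
row sums `≤ C p`; column sums `≤ 4 C p`: for `k = 0`, `∑_j p (1-p)^j / (j+1)² ≤ p ∑ 1/(j+1)² ≤ 2p`;
for `k ≥ 1`, `((k+1)/(j+1))² ≤ (k+1)/(j+1) ≤ 2k/j` and `binom(j,k) k / j = binom(j-1,k-1)`, so the
column sum is `≤ 2 p^(k+1) ∑_j binom(j-1,k-1)(1-p)^(j-k) ≤ 2 p`.  SCH. -/
def S_BPW : Prop :=
  ∀ (a : ℝ) (b : ℕ → ℝ) (C : ℝ), 0 < a → a < 1 → (∀ k, 0 < b k) → (∀ j k, k ≤ j → b j ≤ b k) →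
    1 ≤ C → (∀ j k : ℕ, k ≤ j → b j ≤ C * (((k : ℝ) + 1) / ((j : ℝ) + 1)) ^ 2 * b k) →
    ∃ C' : ℝ, 0 < C' ∧ ∀ k : ℕ, ‖(T a b) ^ k‖ ≤ C' * a ^ k

/-- TCO: `s ↦ T a (bs s)` is StarCont.  Proof: bounded by `√a`; `s ↦ bs s k` is continuous (depends on
finitely many coordinates).  By density and boundedness it is enough to take `x = e_k`:
`T e_k = ∑_j t_jk (b_j/b_k) e_j`, with `|t_jk b_j / b_k| ≤ t_jk`, `∑_j t_jk² < ∞` (uniformly convergent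
series of continuous functions); `T* e_j = ∑_(k ≤ j) t_jk (b_j/b_k) e_k` is a finite sum. -/
def S_TCO : Prop :=
  ∀ a : ℝ, 0 < a → a < 1 → StarCont fun s : ℕ → Bool => T a (bs s)

/-- TOT (totality of kernel vectors).  Two operators agreeing on all `kv w`, `0 ≤ w < 1`, are equal.
Proof: if `x ⊥ kv w` for all `w` then the power series `∑ conj(x_k) w^k` (radius ≥ 1) vanishes on
`[0,1)`, so all `x_k = 0` (identity theorem); so the span of the `kv w` is dense. -/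
def S_TOT : Prop :=
  ∀ A B : L2 →L[ℂ] L2, (∀ w : ℝ, 0 ≤ w → w < 1 → A (kv w) = B (kv w)) → A = B

/-- KV1.  `(kv w) k = w^k`; `R a (kv w) = a • kv (a w + 1 - a)` (binomial theorem). -/
def S_KV1 : Prop :=
  (∀ (w : ℝ) (k : ℕ), 0 ≤ w → w < 1 → (kv w) k = ((w ^ k : ℝ) : ℂ)) ∧
  ∀ a w : ℝ, 0 < a → a ≤ 1 → 0 ≤ w → w < 1 → R a (kv w) = (a : ℂ) • kv (a * w + 1 - a)

/-- KV2.  `(R a)* (kv w) = (a/(1-(1-a)w)) • kv (a w/(1-(1-a) w))`.  Proof: the `k`-th coordinate is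
`⟨e_k, (R a)* kv w⟩ = ⟨R a e_k, kv w⟩ = ∑_j t_jk w^j = a^(k+1) w^k / (1-(1-a)w)^(k+1)`. -/
def S_KV2 : Prop :=
  ∀ a w : ℝ, 0 < a → a ≤ 1 → 0 ≤ w → w < 1 →
    star (R a) (kv w) = ((a / (1 - (1 - a) * w) : ℝ) : ℂ) • kv (a * w / (1 - (1 - a) * w))

/-- KER (identities, checked on kernel vectors with KV1, KV2, TOT).  With `v = 1/(1-w)`:
`E c (kv w) = (v/(v+c)) kv w'` with `1/(1-w') = v + c`, and `R a (kv w) = a kv w''` with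
`1/(1-w'') = v/a`.  Hence `E c E d = E (c+d)`, `E c R a = R a E (a c)`, and
`R a (R a)* = a E ((1-a)/a)` for `1/2 < a`. -/
def S_KER : Prop :=
  (∀ c d : ℝ, 0 ≤ c → 0 ≤ d → c + d < 1 → E c * E d = E (c + d)) ∧
  (∀ a c : ℝ, 0 < a → a ≤ 1 → 0 ≤ c → c < 1 → E c * R a = R a * E (a * c)) ∧
  (∀ a : ℝ, 1 / 2 < a → a ≤ 1 → R a * star (R a) = (a : ℂ) • E ((1 - a) / a))

/-- MOD (the pure model).  `E c = (1/(1-c)) (R (1-c))* R (1-c)` is self-adjoint, a contraction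
(`‖R p‖ ≤ √p`), injective (`R p` is injective), `E 0 = 1` as `R 1 = 1`.  `(R a)* R a = a E (1-a) =
(√a E ((1-a)/2))²`, so `‖R a h‖ = √a ‖E((1-a)/2) h‖`, and DGL gives an isometry `U` with
`U (√a E((1-a)/2)) = R a` (dense range of the injective self-adjoint `E`).  `E c U = U E (a c)` follows
from `E c R a = R a E (a c)` on the dense range of `E ((1-a)/2)`. -/
def S_MOD : Prop :=
  ∀ a : ℝ, 0 < a → a < 1 → ∃ U : L2 →L[ℂ] L2, Pure a E U ∧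
    R a = ((Real.sqrt a : ℝ) : ℂ) • (U * E ((1 - a) / 2))

/-- DOM.  Lower triangular with nonzero diagonal: by strong induction on `k`,
`a^(k+1) |x_k| ≤ |(R a x)_k| + ∑_(i<k) t_ki |x_i|`, `|(R a x)_k| ≤ ‖R a x‖`. -/
def S_DOM : Prop :=
  ∀ (a : ℝ) (k : ℕ), 0 < a → a < 1 → ∃ C : ℝ, 0 ≤ C ∧ ∀ x : L2, ‖x k‖ ≤ C * ‖R a x‖

/-- DIA.  For an eventually constant positive decreasing weight `b` (`b_k = b_N`, `k ≥ N`) the diagonal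
operator `Z = diag(b_k / b_N)` and `Y = Z⁻¹` are bounded, `Y (T a b) = (R a) Y`,
`T a b = Z (R a) Y`, `‖Y‖ ≤ 1`, `Z` and `Y` are self-adjoint, and `Z - 1` is supported on the
coordinates `k < N`: for every `p`, `‖R p (Z x)‖ ≤ C ‖R p x‖` by DOM
(`R p Z x = R p x + ∑_(k<N) (z_k - 1) x_k R p e_k`). -/
def S_DIA : Prop :=
  ∀ b : ℕ → ℝ, (∀ k, 0 < b k) → (∀ j k, k ≤ j → b j ≤ b k) → (∃ N, ∀ k ≥ N, b k = b N) →
    ∃ Y Z : L2 →L[ℂ] L2, Y * Z = 1 ∧ Z * Y = 1 ∧ star Y = Y ∧ star Z = Z ∧ ‖Y‖ ≤ 1 ∧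
      (∀ a : ℝ, 0 < a → a < 1 → T a b = Z * R a * Y) ∧
      ∀ p : ℝ, 0 < p → p < 1 → ∃ C : ℝ, 0 ≤ C ∧ ∀ x : L2, ‖R p (Z x)‖ ≤ C * ‖R p x‖

/-- EPW.  `(E c)^q = E (q c)` for rational `q = m/n ∈ (0,1)`: with `F = E (c/n) ≥ 0`,
`F^n = E c` (semigroup), `F^m = E (m c / n)`, so `(E c)^(m/n) = (F^n)^(m/n) = F^m`. -/
def S_EPW : Prop :=
  ∀ (c : ℝ) (m n : ℕ), 0 ≤ c → c < 1 → 0 < m → m < n →
    0 ≤ E c ∧ pw (E c) ((m : ℝ) / n) = E ((m : ℝ) / n * c)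

/-- FIN (the F1 inequality for eventually constant weights).  Proof.  Choose a rational
`q = m/n`, `max(a, 1-a) < q < 1`, and put `α = (1-a)/q ∈ (1-a, 1)`, `α ≤ (1-a)/a`, `p = 1 - α`,
`a' = 1/(1+α) ∈ (1/2, 1)`, `a ≤ a'`.  With `Y, Z` of DIA:
(i) `‖R a x‖ = ‖R a Z Y x‖ ≤ C ‖R a Y x‖ ≤ C ‖Z R a Y x‖ = C ‖T x‖` (`‖Y‖ ≤ 1` so `‖v‖ ≤ ‖Z v‖`).
(ii) `‖T* x‖ = ‖Y (R a)* Z x‖ ≤ ‖(R a)* Z x‖`; `R a = R a' R (a/a')` so `‖(R a)* g‖ ≤ ‖(R a')* g‖`,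
`‖(R a')* g‖² = a' ⟨E α g, g⟩ = (a'/p) ‖R p g‖²` (KER(3): `(1-a')/a' = α`; `E α = (1/p) (R p)* R p`);
so `‖T* x‖ ≤ C' ‖R p Z x‖ ≤ C'' ‖R p x‖`.
Hence `T T* ≤ K₁ E α`, `E (1-a) ≤ K₂ T* T`, and `(T T*)^q ≤ K₁^q (E α)^q = K₁^q E (1-a) ≤ K T* T`. -/
def S_FIN : Prop :=
  ∀ (a : ℝ) (b : ℕ → ℝ), 0 < a → a < 1 → (∀ k, 0 < b k) → (∀ j k, k ≤ j → b j ≤ b k) →
    (∃ N, ∀ k ≥ N, b k = b N) → ∃ q K : ℝ, 0 < q ∧ q < 1 ∧ 1 ≤ K ∧
      pw (T a b * star (T a b)) q ≤ (K : ℂ) • (star (T a b) * T a b)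

/-- EVL.  For `β j ≥ 1/(j+1)²` (`β 0 = 1`) the series `∑ x_j/β_j z^j`, `|z| < 1`, converges
absolutely, and `evalH β x z = ⟨k_z, x⟩` with `k_z = (conj z^j / β_j)_j ∈ ℓ²`. -/
def S_EVL : Prop :=
  ∀ β : ℕ → ℝ, (∀ j : ℕ, (1 / ((j : ℝ) + 1)) ^ 2 ≤ β j) → ∀ (x : L2) (z : ℂ), ‖z‖ < 1 →
    Summable fun j => ‖x j / (β j : ℂ) * z ^ j‖

/-- PHI.  `C_φ`, `φ(z) = a z + 1 - a`, is bounded on `H²(β)`, `β = bet b`.  Proof: the lower triangular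
matrix `m n k = binom(n,k) a^k (1-a)^(n-k) β_k/β_n` has `β_k/β_n ≤ 8 (n+1)(n+2)/((k+1)(k+2))`, so
`m n k ≤ 8 binom(n+2,k+2) a^k (1-a)^(n-k)`: row sums `≤ 8 a^(-2)`, column sums `≤ 8 a^(-3)`; SCH.
`C_φ := (mat m)*`: `evalH β (C_φ x) z = ⟨k_z, C_φ x⟩ = ⟨mat m k_z, x⟩` and
`(mat m k_z)_n = ∑_k binom(n,k) a^k (1-a)^(n-k) conj z^k / β_n = conj(φ z)^n / β_n`. -/
def S_PHI : Prop :=
  ∀ (a : ℝ) (b : ℕ → ℝ), 0 < a → a < 1 → (∀ k, 0 < b k) → b 0 = 1 → (∀ j k, k ≤ j → b j ≤ b k) →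
    (∀ j k : ℕ, k ≤ j → (((k : ℝ) + 1) / ((j : ℝ) + 1)) ^ 2 * b k ≤ b j) →
    ∃ A : L2 →L[ℂ] L2, IsComp (bet b) (fun z => a * z + (1 - a)) A

/-- SIG.  `C_σ`, `σ(z) = a z/(1-(1-a)z)`, on `H²(β)`, `β = bet b`, with the isometry `J e_k = e_(k+1)`:
the operator `S` with `S e_0 = e_0`, `S J = J T a b`, i.e. `S = P_0 + J (T a b) J*`
(`P_0` the projection on `e_0`), `S* J = J (T a b)*`, injective.  `evalH β (S x) z = x_0 +
∑_j (T a b J* x)_j z^(j+1)/b_j = x_0 + ∑_k x_(k+1)/b_k ∑_(j≥k) t_jk z^(j+1) = ∑_n x_n/β_n σ(z)^n`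
(`∑_(j ≥ k) t_jk z^(j+1) = σ(z)^(k+1)`; the interchange is absolutely convergent, or use
`S* k_z = k_(σ z)` as in PHI). -/
def S_SIG : Prop :=
  ∀ (a : ℝ) (b : ℕ → ℝ), 0 < a → a < 1 → (∀ k, 0 < b k) → b 0 = 1 → (∀ j k, k ≤ j → b j ≤ b k) →
    (∀ j k : ℕ, k ≤ j → (((k : ℝ) + 1) / ((j : ℝ) + 1)) ^ 2 * b k ≤ b j) →
    ∃ S J : L2 →L[ℂ] L2, Function.Injective S ∧ star J * J = 1 ∧ S * J = J * T a b ∧
      star S * J = J * star (T a b) ∧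
      IsComp (bet b) (fun z => a * z / (1 - (1 - a) * z)) S

end Pool.Agent.H308.AL
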